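import Pool.Agent.Helper5.WD.Stmts

/-! Row GRGM of sheet WD. -/

set_option autoImplicit false

open Finset Pool.Agent.Helper8.UN Pool.Agent.Helper5.FV

namespace Pool.Agent.Helper5.WD

theorem grgm_nb {n : ℕ} (E : Finset (Finset (Fin n))) (D0 : ℕ) (h : Deg E D0 4) : NB E D0 := by
  intro W y
  refine le_trans ?_ (h y)
  refine Finset.card_le_card_of_injOn (fun z => ({y, z} : Finset (Fin n))) ?_ ?_
  · intro z hz
    rw [mem_coe, nb, mem_filter] at hz
    rw [mem_coe, mem_filter]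
    refine ⟨hz.2.2, by simp, ?_⟩
    have := Finset.card_le_two (a := y) (b := z)
    show ({y, z} : Finset (Fin n)).card < 4
    omega
  · intro z hz z' hz' hzz
    rw [mem_coe, nb, mem_filter] at hz hz'
    have h1 : z ∈ ({y, z'} : Finset (Fin n)) := by
      have : ({y, z} : Finset (Fin n)) = {y, z'} := hzz
      rw [← this]
      simp
    rw [mem_insert, mem_singleton] at h1
    rcases h1 with h1 | h1
    · exact absurd h1 hz.2.1
    · exact h1

theorem grgm_ws {n : ℕ} (E : Finset (Finset (Fin n))) (r : ℕ) (κ κ' : ℝ) (y : Fin n) (h0 : 0 < κ)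
    (h : κ ≤ κ') : ws E r κ' y ≤ ws E r κ y := by
  unfold ws
  refine Finset.sum_le_sum fun e _ => ?_
  have h1 : 0 < κ' := h0.trans_le h
  exact pow_le_pow_left₀ (by positivity) (one_div_le_one_div_of_le h0 h) _

theorem st_GRGM (hGRW : ST_GRW) (hGBL3 : ST_GBL3) (hGNUM : ST_GNUM) : ST_GRGM := by
  obtain ⟨n₀, hn₀⟩ := hGNUM
  refine ⟨n₀, fun n hn D0 r k E hR hk => ?_⟩
  obtain ⟨h4, hD, -, hD2, hk2, hκ0, -, hκ, hch⟩ := hn₀ n hn D0 r k hR.d0 hR.r0 hk
  have hNB : NB E D0 := grgm_nb E D0 hR.deg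
  have hws : ∀ y, ws E r ((k : ℝ) - (D0 + 1)) y ≤ 1 / 40000 := fun y =>
    (grgm_ws E r _ _ y hκ0 hκ).trans (hR.wt y)
  have hn0 : 1 ≤ n := by
    rcases Nat.eq_zero_or_pos n with h | h
    · subst h
      simp at hκ0
    · exact h
  have hκpos : 0 < (k : ℝ) - (D0 + 1) := hκ0.trans_le hκ
  have hch2 : (n.choose (r - 1) : ℝ) / ((k : ℝ) - (D0 + 1)) ^ (r - 2) ≤ 1 / 40000 := by
    refine le_trans ?_ hch
    have h1 : (1 : ℝ) ≤ n := by exact_mod_cast hn0
    have h2 : (0 : ℝ) ≤ (n.choose (r - 1) : ℝ) := Nat.cast_nonneg _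
    refine div_le_div_of_nonneg_right ?_ (by positivity)
    nlinarith
  have hGD : GD E (D0 + 1) k := by
    refine hGRW n D0 r k E hR.two h4 (by omega) hNB fun y => ?_
    have := hws y
    linarith
  refine ⟨h4, hD, hD2, hk2, hNB, hGD, fun W W' y hy hW' => ?_⟩
  obtain ⟨hA, hB⟩ := hGBL3 n (D0 + 1) k r k E W W' y hR.two hGD le_rfl (by omega) h4 hy hW'
  have hle : ws E r ((k : ℝ) - ((D0 + 1 : ℕ) : ℝ)) y +
      n * n.choose (r - 1) / ((k : ℝ) - ((D0 + 1 : ℕ) : ℝ)) ^ (r - 2) ≤ 1 / 20000 := by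
    push_cast
    have := hws y
    linarith
  exact ⟨hA.trans (mul_le_mul_of_nonneg_left hle (Nat.cast_nonneg _)),
    hB.trans (mul_le_mul_of_nonneg_left hle (Nat.cast_nonneg _))⟩

end Pool.Agent.Helper5.WD
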